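import Pool.Agent.Helper79.NX2.Freeze
import Pool.Agent.Helper53.NX2.Cells

/-!
# Project NX2, B18: the model for the primes (assembly)
-/

set_option autoImplicit false

open Finset
open scoped BigOperators ComplexConjugate

namespace Pool.Agent.Helper67.NX2

open Pool.Agent.Helper57.NX

noncomputable section

/-- the statement of `stage12` -/
def Stage12C (s : ℕ) (d : Fin (s + 1) → ℕ) (γ ε : ℝ) : Prop :=
    ∃ x0 : ℝ, 0 < x0 ∧ ∀ τ V κ σ : ℝ, 0 < τ → 1 ≤ V → 0 < κ → 0 < σ → ∀ K K1 : ℕ, 1 ≤ K → 1 ≤ K1 →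
    ∃ z0 : ℕ, ∀ z : ℕ, z0 ≤ z → ∃ K2 : ℕ, K1 ∣ K2 ∧ 1 ≤ K2 ∧ (K2 : ℝ) ≤ (2 : ℝ) ^ (σ * z) ∧
    ∀ A : Finset ℕ, PrA z A → ∀ (D : ℝ) (u T : ℕ), (2 : ℝ) ^ (τ * z) ≤ D →
    (∀ i, ((K : ℝ) * (3 * D)) ^ (d i) ≤ (2 : ℝ) ^ z) → D ≤ u → (u : ℝ) + T ≤ 2 * D →
    D ^ (1 - x0) ≤ T →
    ∀ G : ℕ → ℝ, (∀ x, |G x| ≤ V) → (∀ x t : ℕ, |G (x + t) - G x| ≤ V * t / D ^ (γ - ε)) →
    ∀ b : Option (Fin (s + 1)) → ℕ, BlkLen d γ ε D b →
    |nform d K u T (2 ^ z) G (fun _ => FA z A) -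
      nform d K u T (2 ^ z) G (fun o => Fm (FA z A) K2 (b o))| ≤ κ

/-- the statement of `local_main` -/
def LocalMainC (s : ℕ) (d : Fin (s + 1) → ℕ) : Prop := ∀ (V κ : ℝ), 1 ≤ V → 0 < κ →
    ∃ w0 : ℕ, ∀ w : ℕ, w0 ≤ w → ∀ K : ℕ, 1 ≤ K → (∀ p : ℕ, p.Prime → p ∣ K → p ≤ w) →
    ∃ (K' : ℕ) (_ : NeZero K'), K ∣ K' ∧ (∀ p : ℕ, p.Prime → (p ∣ K' ↔ p ≤ w)) ∧
    ∀ (M : ℕ) [NeZero M], K' ∣ M → ∀ H : Option (Fin (s + 1)) → ZMod M → ℝ, (∀ o ρ, 0 ≤ H o ρ) →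
    (∀ M' : ℕ, M' ∣ M → ∀ o ρ, fav M' (H o) ρ ≤ V * (M' / M'.totient)) →
    |lfm d K M H - lfm d K K' (fun o => fav K' (H o))| ≤ κ

/-- the statement of `cell_le` -/
def CellLeC : Prop := ∃ C : ℝ, 0 < C ∧ ∀ (z : ℕ) (A : Finset ℕ), PrA z A → ∀ b j M : ℕ, 1 ≤ b →
    b ≤ z → 1 ≤ M → M ^ 2 < 2 ^ b → ∀ ρ : ZMod M,
    cell (FA z A) M b j ρ ≤ C * (z / b) * (M / M.totient)

private lemma cell_nonneg46 {F : ℕ → ℝ} (hF : ∀ x, 0 ≤ F x) (M b j : ℕ) (ρ : ZMod M) :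
    0 ≤ cell F M b j ρ := by
  unfold cell
  refine mul_nonneg (by positivity) (sum_nonneg fun y _ => ?_)
  split_ifs
  · exact hF y
  · exact le_rfl

private lemma FA_nonneg46 (z : ℕ) (A : Finset ℕ) (x : ℕ) : 0 ≤ FA z A x := by
  unfold FA
  split_ifs
  · exact Real.log_nonneg (one_le_pow₀ (by norm_num))
  · exact le_rfl

/-- block lengths are comparable to `z` -/
private lemma blk46 {b z : ℕ} {D e ε τ : ℝ} (hε' : ε ≤ 1 / 8) (he : 1 ≤ e) (hD : 256 ≤ D)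
    (hτ : (2 : ℝ) ^ (τ * z) ≤ D) (hb : D ^ (e - 2 * ε) / 4 ≤ (2 : ℝ) ^ b) :
    (2 : ℝ) ^ (τ * z / 2) ≤ (2 : ℝ) ^ b ∧ τ * z / 2 ≤ b := by
  have hD0 : 0 < D := by linarith
  have hD1 : 1 ≤ D := by linarith
  have h1 : D ^ (3 / 4 : ℝ) ≤ D ^ (e - 2 * ε) :=
    Real.rpow_le_rpow_of_exponent_le hD1 (by linarith)
  have h2 : (4 : ℝ) ≤ D ^ (1 / 4 : ℝ) := by
    have h3 : (4 : ℝ) = 256 ^ (1 / 4 : ℝ) := by
      rw [show (256 : ℝ) = 4 ^ (4 : ℝ) by norm_num, ← Real.rpow_mul (by norm_num)]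
      norm_num
    exact h3.le.trans (Real.rpow_le_rpow (by norm_num) hD (by norm_num))
  have h3 : D ^ (3 / 4 : ℝ) = D ^ (1 / 2 : ℝ) * D ^ (1 / 4 : ℝ) := by
    rw [← Real.rpow_add hD0]
    norm_num
  have h4 : D ^ (1 / 2 : ℝ) ≤ (2 : ℝ) ^ b := by
    have h5 : 0 < D ^ (1 / 2 : ℝ) := Real.rpow_pos_of_pos hD0 _
    have h6 := mul_le_mul_of_nonneg_left h2 h5.le
    linarith
  have h5 : (2 : ℝ) ^ (τ * z / 2) ≤ D ^ (1 / 2 : ℝ) := by
    have h6 := Real.rpow_le_rpow (by positivity) hτ (by norm_num : (0 : ℝ) ≤ 1 / 2)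
    rw [← Real.rpow_mul (by norm_num)] at h6
    refine le_trans (le_of_eq ?_) h6
    congr 1
    ring
  have h6 := h5.trans h4
  refine ⟨h6, ?_⟩
  rw [← Real.rpow_natCast 2 b] at h6
  exact (Real.rpow_le_rpow_left_iff (by norm_num)).1 h6

theorem primes_model_of (s : ℕ) (d : Fin (s + 1) → ℕ) (hd2 : ∀ i, 2 ≤ d i)
    (hgap : ∀ i j, i < j → d i + 2 ≤ d j) (γ ε : ℝ) (hγ : 1 ≤ γ) (hγd : γ ≤ d 0) (hε : 0 < ε)
    (hε' : ε ≤ 1 / 8) (hS : Stage12C s d γ ε) (hL : LocalMainC s d) (hC : CellLeC) :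
    ∃ x0 : ℝ, 0 < x0 ∧ ∀ τ V κ : ℝ, 0 < τ → 1 ≤ V → 0 < κ → ∃ w0 : ℕ, ∀ w : ℕ, w0 ≤ w →
    ∀ K : ℕ, 1 ≤ K → (∀ p : ℕ, p.Prime → p ∣ K → p ≤ w) →
    ∃ K' : ℕ, 1 ≤ K' ∧ K ∣ K' ∧ (∀ p : ℕ, p.Prime → (p ∣ K' ↔ p ≤ w)) ∧
    ∃ z0 : ℕ, ∀ z : ℕ, z0 ≤ z → ∀ A : Finset ℕ, PrA z A → ∀ (D : ℝ) (u T : ℕ),
    (2 : ℝ) ^ (τ * z) ≤ D → (∀ i, ((K : ℝ) * (3 * D)) ^ (d i) ≤ (2 : ℝ) ^ z) →
    D ≤ u → (u : ℝ) + T ≤ 2 * D → D ^ (1 - x0) ≤ T →
    ∀ G : ℕ → ℝ, (∀ x, |G x| ≤ V) → (∀ x t : ℕ, |G (x + t) - G x| ≤ V * t / D ^ (γ - ε)) →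
    ∀ b : Option (Fin (s + 1)) → ℕ, BlkLen d γ ε D b →
    |nform d K u T (2 ^ z) G (fun _ => FA z A) -
      nform d K u T (2 ^ z) G (fun o => Fm (FA z A) K' (b o))| ≤ κ := by
  have hγd' : ∀ i, γ ≤ d i := by
    intro i
    by_cases hi : i = 0
    · rw [hi]; exact hγd
    · have h1 := hgap 0 i (Fin.pos_of_ne_zero hi)
      have h2 : ((d 0 : ℕ) : ℝ) ≤ d i := by exact_mod_cast (by omega : d 0 ≤ d i)
      linarith
  obtain ⟨x1, hx1, HS⟩ := hS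
  obtain ⟨Cc, hCc, HC⟩ := hC
  obtain ⟨σf, hσf, Df, HF⟩ := freeze s d hd2 γ ε hγ hγd' hε hε'
  refine ⟨min x1 ε, lt_min hx1 hε, ?_⟩
  intro τ V κ hτ hV hκ
  have hV0 : 0 < V := by linarith
  set Vl : ℝ := max 1 (Cc * (2 / τ)) with hVl
  have hVl1 : 1 ≤ Vl := le_max_left _ _
  obtain ⟨w0, HL⟩ := hL Vl (κ / (4 * V)) hVl1 (by positivity)
  refine ⟨w0, ?_⟩
  intro w hw K hK hKw
  obtain ⟨K', hK'0, hKK', hK'p, HL'⟩ := HL w hw K hK hKw
  have hK'1 : 1 ≤ K' := Nat.one_le_iff_ne_zero.2 (NeZero.ne K')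
  refine ⟨K', hK'1, hKK', hK'p, ?_⟩
  set σ : ℝ := τ * min (σf / 2) (1 / 16) with hσ
  have hσ0 : 0 < σ := mul_pos hτ (lt_min (by positivity) (by norm_num))
  obtain ⟨z1, HS'⟩ := HS τ V (κ / 4) σ hτ hV (by positivity) hσ0 K K' hK hK'1
  -- lower bound for `D`
  set Dm : ℝ := max (max (max Df 256) (max ((K : ℝ) ^ (1 / σf)) (V ^ (1 / σf))))
    (max ((Cc * (2 / τ)) ^ (2 / σf)) ((8 / κ) ^ (1 / σf))) with hDm
  obtain ⟨z2, hz2⟩ : ∃ z2 : ℕ, Dm ≤ (2 : ℝ) ^ (τ * z2) := by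
    obtain ⟨n, hn⟩ := exists_nat_ge (Real.logb 2 (max Dm 1) / τ)
    refine ⟨n, ?_⟩
    have h1 : Real.logb 2 (max Dm 1) ≤ τ * n := by
      rw [div_le_iff₀ hτ] at hn
      linarith
    have h2 := (Real.logb_le_iff_le_rpow (by norm_num) (by positivity)).1 h1
    exact (le_max_left _ _).trans h2
  refine ⟨max (max z1 z2) 1, ?_⟩
  intro z hz A hA D u T hDz hKz hu1 hu2 hT G hG hGl b hb
  have hz1 : z1 ≤ z := ((le_max_left _ _).trans (le_max_left _ _)).trans hz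
  have hz2' : z2 ≤ z := ((le_max_right _ _).trans (le_max_left _ _)).trans hz
  have hz3 : 1 ≤ z := (le_max_right _ _).trans hz
  have hzr : (1 : ℝ) ≤ z := by exact_mod_cast hz3
  have hDm' : Dm ≤ D := by
    refine (hz2.trans (Real.rpow_le_rpow_of_exponent_le (by norm_num) ?_)).trans hDz
    exact mul_le_mul_of_nonneg_left (by exact_mod_cast hz2') hτ.le
  have hDf : Df ≤ D := le_trans ((le_max_left _ _).trans ((le_max_left _ _).trans (le_max_left _ _))) hDm'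
  have hD256 : 256 ≤ D :=
    le_trans ((le_max_right _ _).trans ((le_max_left _ _).trans (le_max_left _ _))) hDm'
  have hDK : (K : ℝ) ^ (1 / σf) ≤ D :=
    le_trans ((le_max_left _ _).trans ((le_max_right _ _).trans (le_max_left _ _))) hDm'
  have hDV : V ^ (1 / σf) ≤ D :=
    le_trans ((le_max_right _ _).trans ((le_max_right _ _).trans (le_max_left _ _))) hDm'
  have hDC : (Cc * (2 / τ)) ^ (2 / σf) ≤ D :=
    le_trans ((le_max_left _ _).trans (le_max_right _ _)) hDm'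
  have hDκ : (8 / κ) ^ (1 / σf) ≤ D :=
    le_trans ((le_max_right _ _).trans (le_max_right _ _)) hDm'
  have hD0 : 0 < D := by linarith
  have hD1 : 1 ≤ D := by linarith
  have hpw : ∀ a t : ℝ, 0 ≤ a → 0 < t → a ^ (1 / t) ≤ D → a ≤ D ^ t := by
    intro a t ha ht h
    have h1 := Real.rpow_le_rpow (by positivity) h ht.le
    rwa [← Real.rpow_mul ha, one_div_mul_cancel ht.ne', Real.rpow_one] at h1
  have hK1 : (K : ℝ) ≤ D ^ σf := hpw _ _ (Nat.cast_nonneg _) hσf hDK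
  have hV1 : V ≤ D ^ σf := hpw _ _ hV0.le hσf hDV
  have hC1 : Cc * (2 / τ) ≤ D ^ (σf / 2) := by
    refine hpw _ _ (by positivity) (by positivity) ?_
    rwa [one_div_div]
  have hκ1 : D ^ (-σf) ≤ κ / 8 := by
    have h1 : 8 / κ ≤ D ^ σf := hpw _ _ (by positivity) hσf hDκ
    rw [Real.rpow_neg hD0.le, inv_le_comm₀ (Real.rpow_pos_of_pos hD0 _) (by positivity), inv_div]
    exact h1
  obtain ⟨K2, hK'K2, hK21, hK2z, HS2⟩ := HS' z hz1
  have : NeZero K2 := ⟨by omega⟩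
  have hK'K2le : K' ≤ K2 := Nat.le_of_dvd hK21 hK'K2
  have hK2D : (K2 : ℝ) ≤ D ^ (σf / 2) := by
    refine hK2z.trans ?_
    have h1 : (2 : ℝ) ^ (σ * z) = ((2 : ℝ) ^ (τ * z)) ^ (min (σf / 2) (1 / 16)) := by
      rw [← Real.rpow_mul (by norm_num)]
      congr 1
      rw [hσ]
      ring
    rw [h1]
    refine (Real.rpow_le_rpow (by positivity) hDz (le_min (by positivity) (by norm_num))).trans ?_
    exact Real.rpow_le_rpow_of_exponent_le hD1 (min_le_left _ _)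
  -- blocks
  have hbb : ∀ o, (2 : ℝ) ^ (τ * z / 2) ≤ (2 : ℝ) ^ (b o) ∧ τ * z / 2 ≤ b o := by
    intro o
    cases o with
    | none => exact blk46 hε' hγ hD256 hDz hb.1.1
    | some i =>
      refine blk46 hε' ?_ hD256 hDz (hb.2 i).1
      exact hγ.trans (hγd' i)
  have hb1 : ∀ o, 1 ≤ b o := by
    intro o
    have h1 := (hbb o).2
    have h2 : 0 < τ * z / 2 := by positivity
    have h3 : (0 : ℝ) < b o := h2.trans_le h1
    exact_mod_cast h3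
  have hK1r : (1 : ℝ) ≤ K := by exact_mod_cast hK
  have hDi : ∀ (e : ℝ) (i : Fin (s + 1)), e ≤ d i → D ^ (e - 2 * ε) ≤ (2 : ℝ) ^ z := by
    intro e i he
    refine le_trans ?_ (hKz i)
    rw [← Real.rpow_natCast (K * (3 * D)) (d i)]
    have h1 : D ^ (e - 2 * ε) ≤ D ^ ((d i : ℕ) : ℝ) :=
      Real.rpow_le_rpow_of_exponent_le hD1 (by linarith)
    refine h1.trans (Real.rpow_le_rpow hD0.le ?_ (Nat.cast_nonneg _))
    nlinarith
  have hbz : ∀ o, b o ≤ z := by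
    intro o
    have h1 : (2 : ℝ) ^ (b o) ≤ 2 ^ z := by
      cases o with
      | none => exact hb.1.2.trans (hDi γ 0 hγd)
      | some i => exact (hb.2 i).2.trans (hDi (d i) i le_rfl)
    exact (pow_le_pow_iff_right₀ (by norm_num : (1 : ℝ) < 2)).1 h1
  have hzb : ∀ o, (z : ℝ) / b o ≤ 2 / τ := by
    intro o
    have h1 := (hbb o).2
    have h2 : (0 : ℝ) < b o := by exact_mod_cast hb1 o
    rw [div_le_div_iff₀ h2 hτ]
    linarith
  have hM2 : ∀ M : ℕ, M ≤ K2 → ∀ o, M ^ 2 < 2 ^ (b o) := by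
    intro M hM o
    have h1 : (M : ℝ) ≤ K2 := by exact_mod_cast hM
    have h2 : (K2 : ℝ) ^ 2 < (2 : ℝ) ^ (b o) := by
      have h3 : (K2 : ℝ) ≤ (2 : ℝ) ^ (τ * z / 8) := by
        refine hK2z.trans (Real.rpow_le_rpow_of_exponent_le (by norm_num) ?_)
        have h4 : σ ≤ τ * (1 / 16) := mul_le_mul_of_nonneg_left (min_le_right _ _) hτ.le
        have h5 : σ * z ≤ τ * (1 / 16) * z := mul_le_mul_of_nonneg_right h4 (by linarith)
        have h6 : 0 < τ * z := by positivity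
        linarith
      have h4 := pow_le_pow_left₀ (Nat.cast_nonneg _) h3 2
      rw [← Real.rpow_natCast ((2 : ℝ) ^ (τ * z / 8)) 2, ← Real.rpow_mul (by norm_num)] at h4
      refine h4.trans_lt (lt_of_lt_of_le ?_ (hbb o).1)
      refine Real.rpow_lt_rpow_of_exponent_lt (by norm_num) ?_
      have h6 : 0 < τ * z := by positivity
      push_cast
      linarith
    have h3 := (pow_le_pow_left₀ (Nat.cast_nonneg _) h1 2).trans_lt h2
    exact_mod_cast h3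
  -- bounds for cells
  have hcell : ∀ (M : ℕ), 1 ≤ M → M ≤ K2 → ∀ o j (ρ : ZMod M),
      cell (FA z A) M (b o) j ρ ≤ Cc * (2 / τ) * (M / M.totient) := by
    intro M hM1 hM2' o j ρ
    refine (HC z A hA (b o) j M (hb1 o) (hbz o) hM1 (hM2 M hM2' o) ρ).trans ?_
    refine mul_le_mul_of_nonneg_right ?_ (by positivity)
    exact mul_le_mul_of_nonneg_left (hzb o) hCc.le
  set Vf : ℝ := max V (Cc * (2 / τ) * K2) with hVf
  have hVf1 : 1 ≤ Vf := hV.trans (le_max_left _ _)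
  have hVfD : Vf ≤ D ^ σf := by
    refine max_le hV1 ?_
    have h1 : D ^ σf = D ^ (σf / 2) * D ^ (σf / 2) := by
      rw [← Real.rpow_add hD0]
      congr 1
      ring
    rw [h1]
    exact mul_le_mul hC1 hK2D (Nat.cast_nonneg _) (Real.rpow_nonneg hD0.le _)
  have hcell' : ∀ (M : ℕ), 1 ≤ M → M ≤ K2 → ∀ o j (ρ : ZMod M),
      |cell (FA z A) M (b o) j ρ| ≤ Vf := by
    intro M hM1 hM2' o j ρ
    rw [abs_of_nonneg (cell_nonneg46 (FA_nonneg46 z A) M (b o) j ρ)]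
    refine (hcell M hM1 hM2' o j ρ).trans (le_trans ?_ (le_max_right _ _))
    refine mul_le_mul_of_nonneg_left ?_ (by positivity)
    have h1 : (1 : ℝ) ≤ M.totient := by exact_mod_cast Nat.totient_pos.2 hM1
    refine (div_le_self (Nat.cast_nonneg _) h1).trans ?_
    exact_mod_cast hM2'
  have hGVf : ∀ x, |G x| ≤ Vf := fun x => (hG x).trans (le_max_left _ _)
  have hGlVf : ∀ x t : ℕ, |G (x + t) - G x| ≤ Vf * t / D ^ (γ - ε) := by
    intro x t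
    refine (hGl x t).trans ?_
    refine div_le_div_of_nonneg_right ?_ (Real.rpow_nonneg hD0.le _)
    exact mul_le_mul_of_nonneg_right (le_max_left _ _) (Nat.cast_nonneg _)
  have hTε : D ^ (1 - ε) ≤ T := by
    refine le_trans (Real.rpow_le_rpow_of_exponent_le hD1 ?_) hT
    have := min_le_right x1 ε
    linarith
  have hT1 : D ^ (1 - x1) ≤ T := by
    refine le_trans (Real.rpow_le_rpow_of_exponent_le hD1 ?_) hT
    have := min_le_left x1 ε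
    linarith
  have hK2D' : (K2 : ℝ) ≤ D ^ σf := hK2D.trans (Real.rpow_le_rpow_of_exponent_le hD1 (by linarith))
  have hK'D : (K' : ℝ) ≤ D ^ σf := le_trans (by exact_mod_cast hK'K2le) hK2D'
  -- the four steps
  have s1 := HS2 A hA D u T hDz hKz hu1 hu2 hT1 G hG hGl b hb
  have s2 := HF D Vf K K2 u T z hDf hK hK1 hK2D' hVf1 hVfD hu1 hu2 hTε hKz (FA z A) G b hb hbz
    (hcell' K2 hK21 le_rfl) hGVf hGlVf
  have s3 := HF D Vf K K' u T z hDf hK hK1 hK'D hVf1 hVfD hu1 hu2 hTε hKz (FA z A) G b hb hbz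
    (hcell' K' hK'1 hK'K2le) hGVf hGlVf
  have s4 : |𝔼 k ∈ Ico u (u + T), (∑ x ∈ range (2 ^ z), G x *
        lfm d K K2 (fun o => cell (FA z A) K2 (b o) ((x + sh d (K * k) o) / 2 ^ (b o)))) / 2 ^ z -
      𝔼 k ∈ Ico u (u + T), (∑ x ∈ range (2 ^ z), G x *
        lfm d K K' (fun o => cell (FA z A) K' (b o) ((x + sh d (K * k) o) / 2 ^ (b o)))) / 2 ^ z| ≤
      κ / 4 := by
    have hpt : ∀ (k x : ℕ),
        |lfm d K K2 (fun o => cell (FA z A) K2 (b o) ((x + sh d (K * k) o) / 2 ^ (b o))) -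
        lfm d K K' (fun o => cell (FA z A) K' (b o) ((x + sh d (K * k) o) / 2 ^ (b o)))| ≤
        κ / (4 * V) := by
      intro k x
      have h1 := HL' K2 hK'K2
        (fun o => cell (FA z A) K2 (b o) ((x + sh d (K * k) o) / 2 ^ (b o)))
        (fun o ρ => cell_nonneg46 (FA_nonneg46 z A) K2 (b o) _ ρ) (by
          intro M' hM' o ρ
          have hM'1 : 1 ≤ M' := Nat.pos_of_dvd_of_pos hM' hK21
          rw [fav_cell (FA z A) K2 M' (b o) _ hM' hM'1 ρ]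
          refine (hcell M' hM'1 (Nat.le_of_dvd hK21 hM') o _ ρ).trans ?_
          exact mul_le_mul_of_nonneg_right (le_max_right _ _) (by positivity))
      have h2 : (fun o : Option (Fin (s + 1)) => fav K'
          (cell (FA z A) K2 (b o) ((x + sh d (K * k) o) / 2 ^ (b o)))) =
          fun o => cell (FA z A) K' (b o) ((x + sh d (K * k) o) / 2 ^ (b o)) := by
        funext o ρ
        exact fav_cell (FA z A) K2 K' (b o) _ hK'K2 hK'1 ρ
      rw [h2] at h1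
      exact h1
    have hT0 : 0 < T := by
      have h1 : 0 < D ^ (1 - ε) := Real.rpow_pos_of_pos hD0 _
      exact_mod_cast h1.trans_le hTε
    have hne : (Ico u (u + T)).Nonempty := by
      rw [nonempty_Ico]
      omega
    rw [← expect_sub_distrib]
    refine (abs_expect_le _ _).trans ?_
    refine expect_le hne fun k _ => ?_
    rw [← sub_div, ← sum_sub_distrib, abs_div, abs_of_pos (by positivity : (0 : ℝ) < 2 ^ z),
      div_le_iff₀ (by positivity)]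
    refine (abs_sum_le_sum_abs _ _).trans ?_
    have h1 : ∀ x ∈ range (2 ^ z), |G x *
        lfm d K K2 (fun o => cell (FA z A) K2 (b o) ((x + sh d (K * k) o) / 2 ^ (b o))) -
        G x * lfm d K K' (fun o => cell (FA z A) K' (b o) ((x + sh d (K * k) o) / 2 ^ (b o)))| ≤
        κ / 4 := by
      intro x _
      rw [← mul_sub, abs_mul]
      refine (mul_le_mul (hG x) (hpt k x) (abs_nonneg _) hV0.le).trans (le_of_eq ?_)
      field_simp
    refine (sum_le_sum h1).trans (le_of_eq ?_)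
    rw [sum_const, card_range, nsmul_eq_mul]
    push_cast
    ring
  have t1 := abs_le.1 s1
  have t2 := abs_le.1 (s2.trans hκ1)
  have t3 := abs_le.1 (s3.trans hκ1)
  have t4 := abs_le.1 s4
  rw [abs_le]
  constructor <;> linarith [t1.1, t1.2, t2.1, t2.2, t3.1, t3.2, t4.1, t4.2]

end

end Pool.Agent.Helper67.NX2
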