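import Pool.Agent.Helper67.NX2.DefsB

/-!
# Project NX2, B12: functions with the same sums over progressions may be exchanged
-/

set_option autoImplicit false

open Finset
open scoped BigOperators ComplexConjugate

namespace Pool.Agent.Helper67.NX2

open Pool.Agent.Helper57.NX

noncomputable section

/-! ### progressions and blocks -/

private lemma rap_card1 (q B L : ℕ) (hq : 1 ≤ q) :
    ((range L).filter (fun a => q * a < B)).card ≤ B / q + 1 := by
  have h : (range L).filter (fun a => q * a < B) ⊆ range (B / q + 1) := by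
    intro a ha
    rw [mem_filter] at ha
    rw [mem_range, Nat.lt_succ_iff, Nat.le_div_iff_mul_le (by omega)]
    have := ha.2
    rw [mul_comm]
    omega
  simpa using card_le_card h

private lemma rap_card2 (q B L : ℕ) (hq : 1 ≤ q) :
    ((range L).filter (fun a => q * (L - a) < B)).card ≤ B / q + 1 := by
  have h : ((range L).filter (fun a => q * (L - a) < B)).card ≤ (range (B / q + 1)).card := by
    refine card_le_card_of_injOn (fun a => L - a) ?_ ?_
    · intro a ha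
      rw [coe_filter, Set.mem_ofPred_eq] at ha
      rw [coe_range, Set.mem_Iio, Nat.lt_succ_iff, Nat.le_div_iff_mul_le (by omega)]
      simp only
      have := ha.2
      rw [mul_comm]
      omega
    · intro a ha b hb hab
      rw [coe_filter, Set.mem_ofPred_eq, mem_range] at ha hb
      simp only at hab
      omega
  simpa using h

private lemma rap_mem_bl {b j y : ℕ} : y ∈ bl b j ↔ y / 2 ^ b = j := by
  unfold bl
  rw [mem_Ico]
  have hB : 0 < 2 ^ b := by positivity
  constructor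
  · rintro ⟨h1, h2⟩
    exact Nat.div_eq_of_lt_le (by rw [mul_comm]; exact h1) (by rw [mul_comm]; exact h2)
  · rintro rfl
    exact ⟨Nat.mul_div_le _ _, by rw [mul_add, mul_one]; exact Nat.lt_mul_div_succ y hB⟩

private lemma rap_inner (z b q L x : ℕ) (h : ℕ → ℝ) (hb : b ≤ z) (hq : 1 ≤ q)
    (h1 : ∀ y, |h y| ≤ 1) (hz : ∀ y, 2 ^ z ≤ y → h y = 0) :
    |∑ a ∈ range L, h (x + q * a)| ≤
      (∑ j ∈ (range (2 ^ (z - b))).filter (fun j => x ≤ 2 ^ b * j ∧ 2 ^ b * (j + 1) ≤ x + q * L),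
        |∑ y ∈ (bl b j).filter (fun y => y % q = x % q), h y|) +
      2 * (((2 ^ b / q : ℕ) : ℝ) + 1) := by
  set J := (range (2 ^ (z - b))).filter (fun j => x ≤ 2 ^ b * j ∧ 2 ^ b * (j + 1) ≤ x + q * L)
    with hJ
  have hB : 0 < 2 ^ b := by positivity
  rw [← sum_filter_add_sum_filter_not (range L) (fun a => (x + q * a) / 2 ^ b ∈ J)]
  refine (abs_add_le _ _).trans (add_le_add ?_ ?_)
  · have e1 : ∑ a ∈ (range L).filter (fun a => (x + q * a) / 2 ^ b ∈ J), h (x + q * a) =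
        ∑ j ∈ J, ∑ a ∈ (range L).filter (fun a => (x + q * a) / 2 ^ b = j), h (x + q * a) := by
      rw [← sum_fiberwise_of_maps_to (g := fun a => (x + q * a) / 2 ^ b) (t := J)]
      · refine sum_congr rfl fun j hj => ?_
        refine sum_congr ?_ fun _ _ => rfl
        ext a
        simp only [mem_filter]
        constructor
        · rintro ⟨⟨ha, _⟩, hc⟩
          exact ⟨ha, hc⟩
        · rintro ⟨ha, hc⟩
          exact ⟨⟨ha, by rw [hc]; exact hj⟩, hc⟩
      · intro a ha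
        exact (mem_filter.1 ha).2
    rw [e1]
    refine (abs_sum_le_sum_abs _ _).trans (sum_le_sum fun j hj => le_of_eq ?_)
    congr 1
    rw [hJ, mem_filter] at hj
    obtain ⟨_, hj1, hj2⟩ := hj
    refine sum_nbij' (fun a => x + q * a) (fun y => (y - x) / q) ?_ ?_ ?_ ?_ ?_
    · intro a ha
      rw [mem_filter] at ha
      rw [mem_filter, rap_mem_bl]
      exact ⟨ha.2, by rw [Nat.add_mul_mod_self_left]⟩
    · intro y hy
      rw [mem_filter] at hy
      obtain ⟨hy1, hy2⟩ := hy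
      have hy3 := hy1
      unfold bl at hy3
      rw [mem_Ico] at hy3
      have hxy : x ≤ y := hj1.trans hy3.1
      have hdvd : q ∣ y - x := (Nat.modEq_iff_dvd' hxy).1 hy2.symm
      have hmul : q * ((y - x) / q) = y - x := Nat.mul_div_cancel' hdvd
      rw [mem_filter, mem_range]
      refine ⟨?_, ?_⟩
      · have : y - x < q * L := by omega
        rw [Nat.div_lt_iff_lt_mul (by omega), mul_comm]
        exact this
      · rw [hmul, Nat.add_sub_cancel' hxy]
        exact rap_mem_bl.1 hy1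
    · intro a _
      simp only [Nat.add_sub_cancel_left]
      exact Nat.mul_div_cancel_left a (by omega)
    · intro y hy
      rw [mem_filter] at hy
      obtain ⟨hy1, hy2⟩ := hy
      unfold bl at hy1
      rw [mem_Ico] at hy1
      have hxy : x ≤ y := hj1.trans hy1.1
      have hdvd : q ∣ y - x := (Nat.modEq_iff_dvd' hxy).1 hy2.symm
      have hmul : q * ((y - x) / q) = y - x := Nat.mul_div_cancel' hdvd
      simp only [hmul]
      omega
    · intro a _
      rfl
  · have e2 : |∑ a ∈ (range L).filter (fun a => ¬ (x + q * a) / 2 ^ b ∈ J), h (x + q * a)| ≤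
        ∑ a ∈ (range L).filter (fun a => q * a < 2 ^ b) ∪
          (range L).filter (fun a => q * (L - a) < 2 ^ b), (1 : ℝ) := by
      refine (abs_sum_le_sum_abs _ _).trans ?_
      have e3 : ∑ a ∈ (range L).filter (fun a => ¬ (x + q * a) / 2 ^ b ∈ J), |h (x + q * a)| =
          ∑ a ∈ ((range L).filter (fun a => ¬ (x + q * a) / 2 ^ b ∈ J)).filter
            (fun a => x + q * a < 2 ^ z), |h (x + q * a)| := by
        rw [sum_filter (fun a => x + q * a < 2 ^ z)]
        refine sum_congr rfl fun a _ => ?_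
        by_cases hc : x + q * a < 2 ^ z
        · rw [if_pos hc]
        · rw [if_neg hc, hz _ (not_lt.1 hc), abs_zero]
      rw [e3]
      refine (sum_le_sum fun a _ => h1 (x + q * a)).trans ?_
      refine sum_le_sum_of_subset_of_nonneg ?_ fun _ _ _ => zero_le_one
      intro a ha
      simp only [mem_filter, mem_union, mem_range] at ha ⊢
      obtain ⟨⟨haL, haJ⟩, haz⟩ := ha
      by_contra hcon
      push Not at hcon
      have hc1 : 2 ^ b ≤ q * a := by
        by_contra h'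
        exact absurd (hcon.1 haL) (by omega)
      have hc2 : 2 ^ b ≤ q * (L - a) := by
        by_contra h'
        exact absurd (hcon.2 haL) (by omega)
      apply haJ
      have hd1 := Nat.mul_div_le (x + q * a) (2 ^ b)
      have hd2 := Nat.lt_mul_div_succ (x + q * a) hB
      have hqL : q * (L - a) + q * a = q * L := by
        rw [← mul_add, Nat.sub_add_cancel haL.le]
      rw [hJ, mem_filter, mem_range]
      refine ⟨?_, ?_, ?_⟩
      · rw [Nat.div_lt_iff_lt_mul hB, ← pow_add, Nat.sub_add_cancel hb]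
        exact haz
      · rw [mul_add, mul_one] at hd2
        omega
      · rw [mul_add, mul_one]
        omega
    refine e2.trans ?_
    rw [sum_const, nsmul_eq_mul, mul_one]
    have e4 := card_union_le ((range L).filter (fun a => q * a < 2 ^ b))
      ((range L).filter (fun a => q * (L - a) < 2 ^ b))
    have e5 := rap_card1 q (2 ^ b) L hq
    have e6 := rap_card2 q (2 ^ b) L hq
    have e7 : (((range L).filter (fun a => q * a < 2 ^ b) ∪
      (range L).filter (fun a => q * (L - a) < 2 ^ b)).card : ℝ) ≤ ((2 * (2 ^ b / q + 1) : ℕ) : ℝ) := by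
      exact_mod_cast (by omega)
    refine e7.trans (le_of_eq ?_)
    push_cast
    ring

private lemma rap_count (q L B j x0 a : ℕ) (hq : 1 ≤ q) (hB : 0 < B) :
    (((range x0).filter (fun x => x % q = a)).filter
      (fun x => x ≤ B * j ∧ B * (j + 1) ≤ x + q * L)).card ≤ L := by
  set lo := B * (j + 1) - q * L with hlo
  have h : (((range x0).filter (fun x => x % q = a)).filter
      (fun x => x ≤ B * j ∧ B * (j + 1) ≤ x + q * L)).card ≤ (range L).card := by
    refine card_le_card_of_injOn (fun x => (x - lo) / q) ?_ ?_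
    · intro x hx
      rw [coe_filter, Set.mem_ofPred_eq, mem_filter] at hx
      rw [coe_range, Set.mem_Iio, Nat.div_lt_iff_lt_mul (by omega)]
      have h1 : B * (j + 1) = B * j + B := by ring
      have h2 : L * q = q * L := mul_comm _ _
      have := hx.2.1
      have := hx.2.2
      have := hx.1.1
      omega
    · intro x hx y hy hxy
      rw [coe_filter, Set.mem_ofPred_eq, mem_filter] at hx hy
      simp only at hxy
      have hx1 : lo ≤ x := by omega
      have hy1 : lo ≤ y := by omega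
      have hmod : x ≡ y [MOD q] := by
        unfold Nat.ModEq
        rw [hx.1.2, hy.1.2]
      have hmod2 : (x - lo) % q = (y - lo) % q := by
        have e1 : (x - lo) + lo ≡ (y - lo) + lo [MOD q] := by
          rw [Nat.sub_add_cancel hx1, Nat.sub_add_cancel hy1]
          exact hmod
        exact Nat.ModEq.add_right_cancel' lo e1
      have e1 := Nat.div_add_mod (x - lo) q
      have e2 := Nat.div_add_mod (y - lo) q
      rw [hxy, hmod2, e2] at e1
      omega
  simpa using h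

/-- sums over progressions are controlled by the sums over residue classes in blocks -/
private lemma rap_core (z b q L : ℕ) (h : ℕ → ℝ) (hb : b ≤ z) (hq : 1 ≤ q) (hL : 1 ≤ L)
    (h1 : ∀ y, |h y| ≤ 1) (hz : ∀ y, 2 ^ z ≤ y → h y = 0) :
    ∑ x ∈ range (2 ^ z), |𝔼 a ∈ range L, h (x + q * a)| ≤
      (∑ j ∈ range (2 ^ (z - b)), ∑ a ∈ range q,
        |∑ y ∈ (bl b j).filter (fun y => y % q = a), h y|) +
      2 ^ z * (2 * ((2 : ℝ) ^ b / q + 1) / L) := by
  have hL0 : (0 : ℝ) < L := by exact_mod_cast hL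
  have hq0 : (0 : ℝ) < q := by exact_mod_cast hq
  have step1 : ∀ x ∈ range (2 ^ z), |𝔼 a ∈ range L, h (x + q * a)| ≤
      (L : ℝ)⁻¹ * ((∑ j ∈ (range (2 ^ (z - b))).filter
        (fun j => x ≤ 2 ^ b * j ∧ 2 ^ b * (j + 1) ≤ x + q * L),
        |∑ y ∈ (bl b j).filter (fun y => y % q = x % q), h y|) +
      2 * ((2 : ℝ) ^ b / q + 1)) := by
    intro x _
    rw [expect_eq_sum_div_card, card_range, abs_div, Nat.abs_cast, div_eq_inv_mul]
    refine mul_le_mul_of_nonneg_left ?_ (by positivity)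
    refine (rap_inner z b q L x h hb hq h1 hz).trans ?_
    gcongr
    refine Nat.cast_div_le.trans ?_
    push_cast
    exact le_rfl
  refine (sum_le_sum step1).trans ?_
  rw [← mul_sum, sum_add_distrib, sum_const, card_range, nsmul_eq_mul, mul_add]
  refine add_le_add ?_ (le_of_eq ?_)
  · rw [inv_mul_le_iff₀ hL0, mul_sum]
    simp only [sum_filter]
    rw [sum_comm]
    refine sum_le_sum fun j _ => ?_
    have e1 : ∑ x ∈ range (2 ^ z), (if x ≤ 2 ^ b * j ∧ 2 ^ b * (j + 1) ≤ x + q * L then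
        |∑ y ∈ (bl b j).filter (fun y => y % q = x % q), h y| else 0) =
        ∑ a ∈ range q, ∑ x ∈ (range (2 ^ z)).filter (fun x => x % q = a),
          (if x ≤ 2 ^ b * j ∧ 2 ^ b * (j + 1) ≤ x + q * L then
            |∑ y ∈ (bl b j).filter (fun y => y % q = x % q), h y| else 0) := by
      rw [sum_fiberwise_of_maps_to]
      intro x _
      exact mem_range.2 (Nat.mod_lt _ hq)
    have e1' := e1
    simp only [sum_filter] at e1' ⊢
    rw [e1', mul_sum]
    refine sum_le_sum fun a ha => ?_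
    have e2 : ∑ x ∈ range (2 ^ z), (if x % q = a then
          (if x ≤ 2 ^ b * j ∧ 2 ^ b * (j + 1) ≤ x + q * L then
            |∑ y ∈ bl b j, if y % q = x % q then h y else 0| else 0) else 0) =
        ∑ x ∈ ((range (2 ^ z)).filter (fun x => x % q = a)).filter
          (fun x => x ≤ 2 ^ b * j ∧ 2 ^ b * (j + 1) ≤ x + q * L),
            |∑ y ∈ bl b j, if y % q = a then h y else 0| := by
      rw [sum_filter, sum_filter]
      refine sum_congr rfl fun x _ => ?_
      by_cases hx : x % q = a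
      · rw [if_pos hx, if_pos hx, hx]
      · rw [if_neg hx, if_neg hx]
    rw [e2, sum_const, nsmul_eq_mul]
    refine mul_le_mul_of_nonneg_right ?_ (abs_nonneg _)
    exact_mod_cast rap_count q L (2 ^ b) j (2 ^ z) a hq (by positivity)
  · push_cast
    field_simp

/-! ### hybrids -/

private lemma rap_prod {s : ℕ} (h : Option (Fin s) → ℕ → ℝ) (o : Option (Fin s)) (u : ℕ → ℝ)
    (y : Option (Fin s) → ℕ) :
    ∏ o', Function.update h o u o' (y o') = u (y o) * ∏ o' ∈ univ.erase o, h o' (y o') := by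
  rw [← mul_prod_erase univ _ (mem_univ o), Function.update_self]
  congr 1
  refine prod_congr rfl fun o' ho' => ?_
  rw [Function.update_of_ne (ne_of_mem_erase ho')]

private lemma rap_nform_sub {s : ℕ} (d : Fin s → ℕ) (K u T Z : ℕ) (G : ℕ → ℝ)
    (h : Option (Fin s) → ℕ → ℝ) (o : Option (Fin s)) (v w : ℕ → ℝ) :
    nform d K u T Z G (Function.update h o v) - nform d K u T Z G (Function.update h o w) =
      nform d K u T Z G (Function.update h o (fun x => v x - w x)) := by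
  unfold nform
  rw [← expect_sub_distrib]
  refine expect_congr rfl fun k _ => ?_
  rw [← sub_div, ← sum_sub_distrib]
  congr 1
  refine sum_congr rfl fun x _ => ?_
  rw [rap_prod h o v, rap_prod h o w, rap_prod h o (fun x => v x - w x)]
  ring

private lemma rap_hybrid {s : ℕ} (Φ : (Option (Fin s) → ℕ → ℝ) → ℝ)
    (hΦ : ∀ h o v w, Φ (Function.update h o v) - Φ (Function.update h o w) =
      Φ (Function.update h o (fun x => v x - w x)))
    (f g : Option (Fin s) → ℕ → ℝ) (B : ℝ)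
    (hB : ∀ (S : Finset (Option (Fin s))) (o : Option (Fin s)),
      |Φ (Function.update (fun o' => if o' ∈ S then g o' else f o') o
        (fun x => f o x - g o x))| ≤ B) :
    |Φ f - Φ g| ≤ (s + 1) * B := by
  have key : ∀ S : Finset (Option (Fin s)),
      |Φ f - Φ (fun o' => if o' ∈ S then g o' else f o')| ≤ S.card * B := by
    intro S
    induction S using Finset.induction_on with
    | empty => simp
    | insert o S ho ih =>
      have e1 : (fun o' => if o' ∈ insert o S then g o' else f o') =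
          Function.update (fun o' => if o' ∈ S then g o' else f o') o (g o) := by
        funext o'
        by_cases h : o' = o
        · subst h
          rw [Function.update_self, if_pos (mem_insert_self _ _)]
        · rw [Function.update_of_ne h]
          simp [mem_insert, h]
      have e2 : (fun o' => if o' ∈ S then g o' else f o') =
          Function.update (fun o' => if o' ∈ S then g o' else f o') o (f o) := by
        funext o'
        by_cases h : o' = o
        · subst h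
          rw [Function.update_self, if_neg ho]
        · rw [Function.update_of_ne h]
      have e3 := hΦ (fun o' => if o' ∈ S then g o' else f o') o (f o) (g o)
      rw [← e2, ← e1] at e3
      have e4 : Φ f - Φ (fun o' => if o' ∈ insert o S then g o' else f o') =
          (Φ f - Φ (fun o' => if o' ∈ S then g o' else f o')) +
          (Φ (fun o' => if o' ∈ S then g o' else f o') -
            Φ (fun o' => if o' ∈ insert o S then g o' else f o')) := by ring
      rw [e4, e3, card_insert_of_notMem ho]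
      refine (abs_add_le _ _).trans ?_
      have := hB S o
      push_cast
      linarith
  have h := key univ
  simp only [mem_univ, if_true] at h
  refine h.trans (le_of_eq ?_)
  simp

/-! ### the input: the theorem on the integers -/

/-- the statement of `thmP` (Part A) for one system of exponents -/
def ThmPC (s : ℕ) (d : Fin (s + 1) → ℕ) : Prop := ∀ ε : ℝ, 0 < ε →
    ∃ x0 : ℝ, 0 < x0 ∧ ∃ C : ℕ, ∃ σ : ℝ, 0 < σ ∧ ∃ D0 : ℝ,
    ∀ (D : ℝ) (lam u T Z : ℕ), D0 ≤ D → D ≤ u → (u : ℝ) + T ≤ 2 * D → D ^ (1 - x0) ≤ T →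
    1 ≤ lam → (∀ i, (lam * (3 * D)) ^ (d i) ≤ Z) →
    ∀ δ : ℝ, D ^ (-σ) ≤ δ → δ ≤ 1 / 2 → (lam : ℝ) ≤ δ⁻¹ →
    ∀ (f0 : ℤ → ℂ) (f : Fin (s + 1) → ℤ → ℂ), (∀ x, ‖f0 x‖ ≤ 1) → (∀ i x, ‖f i x‖ ≤ 1) →
    (∀ x, (x < 0 ∨ (Z : ℤ) ≤ x) → f0 x = 0 ∧ ∀ i, f i x = 0) →
    δ * Z ≤ ‖𝔼 k ∈ Ico u (u + T), ∑ x ∈ range Z, f0 x * ∏ i, f i (x + ((lam * k) ^ (d i) : ℕ))‖ →
    ∃ q : ℕ, 1 ≤ q ∧ (q : ℝ) ≤ δ⁻¹ ^ C ∧
      (∀ L : ℕ, 1 ≤ L → (L : ℝ) * q ≤ D ^ (d 0 - ε) →
        δ ^ C * Z ≤ ∑ x ∈ range Z, ‖𝔼 a ∈ range L, f0 (x + (q * a : ℕ))‖) ∧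
      (∀ i, ∀ L : ℕ, 1 ≤ L → (L : ℝ) * q ≤ D ^ (d i - ε) →
        δ ^ C * Z ≤ ∑ x ∈ range Z, ‖𝔼 a ∈ range L, f i (x + (q * a : ℕ))‖)

/-! ### extension to the integers -/

private def rext (h : ℕ → ℝ) (x : ℤ) : ℂ := if 0 ≤ x then ((h x.toNat : ℝ) : ℂ) else 0

private lemma rext_nat (h : ℕ → ℝ) (n : ℕ) : rext h (n : ℤ) = ((h n : ℝ) : ℂ) := by
  simp [rext]

private lemma rext_add (h : ℕ → ℝ) (n m : ℕ) :
    rext h ((n : ℤ) + ((m : ℕ) : ℤ)) = ((h (n + m) : ℝ) : ℂ) := by
  rw [← Nat.cast_add, rext_nat]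

private lemma norm_rext (h : ℕ → ℝ) (h1 : ∀ x, |h x| ≤ 1) (x : ℤ) : ‖rext h x‖ ≤ 1 := by
  unfold rext
  split_ifs
  · rw [Complex.norm_real, Real.norm_eq_abs]
    exact h1 _
  · simp

private lemma rext_zero (h : ℕ → ℝ) (Z : ℕ) (hz : ∀ y, Z ≤ y → h y = 0) (x : ℤ)
    (hx : x < 0 ∨ (Z : ℤ) ≤ x) : rext h x = 0 := by
  unfold rext
  rcases hx with hx | hx
  · rw [if_neg (by omega)]
  · rw [if_pos (by omega), hz _ (by omega)]
    simp

private lemma expect_ofReal46 {ι : Type} (S : Finset ι) (a : ι → ℝ) :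
    (𝔼 k ∈ S, ((a k : ℝ) : ℂ)) = ((𝔼 k ∈ S, a k : ℝ) : ℂ) := by
  rw [expect_eq_sum_div_card, expect_eq_sum_div_card]
  push_cast
  rfl

/-- the form is the form of the normalised functions -/
private lemma rap_form (s : ℕ) (d : Fin (s + 1) → ℕ) (K u T Z : ℕ) (G : ℕ → ℝ)
    (H : Option (Fin (s + 1)) → ℕ → ℝ) (W : ℝ) (hW : 0 < W) (hZ : 0 < Z) :
    ‖𝔼 k ∈ Ico u (u + T), ∑ x ∈ range Z,
      rext (fun x => G x * H none x / (2 * W ^ 2)) (x : ℤ) *
        ∏ i, rext (fun x => H (some i) x / (2 * W)) ((x : ℤ) + (((K * k) ^ (d i) : ℕ) : ℤ))‖ =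
      |nform d K u T Z G H| * Z / (2 * W ^ 2 * (2 * W) ^ (s + 1)) := by
  have hZ0 : (0 : ℝ) < Z := by exact_mod_cast hZ
  have e1 : ∀ k ∈ Ico u (u + T), ∑ x ∈ range Z,
      rext (fun x => G x * H none x / (2 * W ^ 2)) (x : ℤ) *
        ∏ i, rext (fun x => H (some i) x / (2 * W)) ((x : ℤ) + (((K * k) ^ (d i) : ℕ) : ℤ)) =
      (((∑ x ∈ range Z, G x * ∏ o, H o (x + sh d (K * k) o)) / Z * (Z /
        (2 * W ^ 2 * (2 * W) ^ (s + 1))) : ℝ) : ℂ) := by
    intro k _
    rw [div_mul_div_comm, mul_comm _ (Z : ℝ), mul_div_mul_left _ _ hZ0.ne', sum_div]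
    push_cast
    refine sum_congr rfl fun x _ => ?_
    rw [rext_nat]
    have e2 : ∀ i : Fin (s + 1), rext (fun x => H (some i) x / (2 * W))
        ((x : ℤ) + (((K * k) ^ (d i) : ℕ) : ℤ)) =
        ((H (some i) (x + (K * k) ^ (d i)) / (2 * W) : ℝ) : ℂ) := fun i => rext_add _ _ _
    have e3 : ∀ i : Fin (s + 1), rext (fun x => H (some i) x / (2 * W))
        ((x : ℤ) + ((K : ℤ) * (k : ℤ)) ^ (d i)) =
        ((H (some i) (x + (K * k) ^ (d i)) / (2 * W) : ℝ) : ℂ) := by
      intro i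
      rw [← e2 i]
      push_cast
      rfl
    rw [Fintype.prod_option]
    simp only [e3]
    push_cast
    rw [prod_div_distrib, prod_const, card_univ, Fintype.card_fin]
    simp only [sh, Nat.add_zero]
    field_simp
  rw [expect_congr rfl e1, expect_ofReal46, Complex.norm_real, Real.norm_eq_abs, ← expect_mul,
    abs_mul, abs_of_nonneg (by positivity : (0 : ℝ) ≤ Z / (2 * W ^ 2 * (2 * W) ^ (s + 1)))]
  unfold nform
  ring

private lemma rap_sum_expect (h : ℕ → ℝ) (Z q L : ℕ) :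
    ∑ x ∈ range Z, ‖𝔼 a ∈ range L, rext h ((x : ℤ) + ((q * a : ℕ) : ℤ))‖ =
      ∑ x ∈ range Z, |𝔼 a ∈ range L, h (x + q * a)| := by
  refine sum_congr rfl fun x _ => ?_
  have e1 : ∀ a ∈ range L, rext h ((x : ℤ) + ((q * a : ℕ) : ℤ)) = ((h (x + q * a) : ℝ) : ℂ) :=
    fun a _ => rext_add _ _ _
  rw [expect_congr rfl e1, expect_ofReal46, Complex.norm_real, Real.norm_eq_abs]

/-- size of the error term -/
private lemma rap_err (D e ε : ℝ) (hD : 1 ≤ D) (he : 1 ≤ e) (hε : 0 < ε) (hε' : ε ≤ 1 / 8)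
    (b q : ℕ) (hb : (2 : ℝ) ^ b ≤ D ^ (e - 2 * ε)) (hq : 1 ≤ q) (hqD : (q : ℝ) ≤ D ^ (ε / 8)) :
    1 ≤ ⌊D ^ (e - 3 * ε / 2) / q⌋₊ ∧
    ((⌊D ^ (e - 3 * ε / 2) / q⌋₊ : ℕ) : ℝ) * q ≤ D ^ (e - 3 * ε / 2) ∧
    2 * ((2 : ℝ) ^ b / q + 1) / ((⌊D ^ (e - 3 * ε / 2) / q⌋₊ : ℕ) : ℝ) ≤ 8 * D ^ (-(ε / 2)) := by
  have hD0 : 0 < D := by linarith
  have hq0 : (0 : ℝ) < q := by exact_mod_cast hq
  set E := D ^ (e - 3 * ε / 2) with hE
  have hE0 : 0 < E := Real.rpow_pos_of_pos hD0 _
  have h1 : (q : ℝ) ≤ E * D ^ (-(ε / 2)) := by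
    refine hqD.trans ?_
    rw [hE, ← Real.rpow_add hD0]
    exact Real.rpow_le_rpow_of_exponent_le hD (by linarith)
  have h2 : (2 : ℝ) ^ b ≤ E * D ^ (-(ε / 2)) := by
    refine hb.trans (le_of_eq ?_)
    rw [hE, ← Real.rpow_add hD0]
    congr 1
    ring
  have h3 : D ^ (-(ε / 2)) ≤ 1 := Real.rpow_le_one_of_one_le_of_nonpos hD (by linarith)
  have h4 : (q : ℝ) ≤ E := h1.trans (mul_le_of_le_one_right hE0.le h3)
  have h5 : 1 ≤ E / q := by rw [le_div_iff₀ hq0]; linarith
  have hL1 : 1 ≤ ⌊E / q⌋₊ := by rw [Nat.one_le_floor_iff]; exact h5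
  have hL2 : ((⌊E / q⌋₊ : ℕ) : ℝ) ≤ E / q := Nat.floor_le (by positivity)
  have hL3 : E / q < (⌊E / q⌋₊ : ℕ) + 1 := Nat.lt_floor_add_one _
  have hL1' : (1 : ℝ) ≤ (⌊E / q⌋₊ : ℕ) := by exact_mod_cast hL1
  have hL4 : E / q ≤ 2 * (⌊E / q⌋₊ : ℕ) := by linarith
  refine ⟨hL1, ?_, ?_⟩
  · rwa [← le_div_iff₀ hq0]
  · rw [div_le_iff₀ (by linarith)]
    have h6 : E ≤ 2 * (⌊E / q⌋₊ : ℕ) * q := by
      rwa [div_le_iff₀ hq0] at hL4
    have h7 : 2 * ((2 : ℝ) ^ b / q + 1) = 2 * ((2 : ℝ) ^ b + q) / q := by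
      field_simp
    rw [h7, div_le_iff₀ hq0]
    have h8 : 0 < D ^ (-(ε / 2)) := Real.rpow_pos_of_pos hD0 _
    have h9 := mul_le_mul_of_nonneg_right h6 h8.le
    nlinarith

private lemma rap_contra (D W ε : ℝ) (C z : ℕ) (hD : 1 ≤ D) (hW : 2 ≤ W) (hε : 0 < ε)
    (hWC : W ^ C ≤ D ^ (ε / 8)) (hDbig : 13 ≤ D ^ (ε / 4))
    (h : (W ^ C)⁻¹ * 2 ^ z ≤ 2 ^ z / (4 * W ^ C) + 2 ^ z * D ^ (-ε) +
      2 ^ z * (8 * D ^ (-(ε / 2)))) : False := by
  have hD0 : 0 < D := by linarith
  have hW0 : 0 < W := by linarith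
  have hWC0 : 0 < W ^ C := by positivity
  have hz0 : (0 : ℝ) < 2 ^ z := by positivity
  have h1 : D ^ (-ε) ≤ D ^ (-(ε / 2)) := Real.rpow_le_rpow_of_exponent_le hD (by linarith)
  have h2 : (W ^ C)⁻¹ ≤ (W ^ C)⁻¹ / 4 + 9 * D ^ (-(ε / 2)) := by
    have h3 : (2 : ℝ) ^ z / (4 * W ^ C) = 2 ^ z * ((W ^ C)⁻¹ / 4) := by
      field_simp
    rw [h3, mul_comm, ← mul_add, ← mul_add] at h
    have h4 := le_of_mul_le_mul_left h hz0
    linarith
  have h3 : 3 / 4 ≤ 9 * (D ^ (-(ε / 2)) * W ^ C) := by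
    have h4 := mul_le_mul_of_nonneg_right h2 hWC0.le
    have h5 : (W ^ C)⁻¹ * W ^ C = 1 := inv_mul_cancel₀ hWC0.ne'
    rw [add_mul, div_mul_eq_mul_div, h5] at h4
    linarith
  have h4 : D ^ (-(ε / 2)) * W ^ C ≤ D ^ (-(ε / 4)) := by
    calc D ^ (-(ε / 2)) * W ^ C ≤ D ^ (-(ε / 2)) * D ^ (ε / 8) :=
          mul_le_mul_of_nonneg_left hWC (Real.rpow_nonneg hD0.le _)
      _ = D ^ (-(ε / 2) + ε / 8) := (Real.rpow_add hD0 _ _).symm
      _ ≤ D ^ (-(ε / 4)) := Real.rpow_le_rpow_of_exponent_le hD (by linarith)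
  have h5 : D ^ (-(ε / 4)) ≤ 1 / 13 := by
    rw [Real.rpow_neg hD0.le, one_div]
    exact inv_anti₀ (by norm_num) hDbig
  linarith

private lemma rap_sum_some (z b q C : ℕ) (W : ℝ) (F : ℕ → ℝ) (hW : 2 ≤ W)
    (h : ∑ j ∈ range (2 ^ (z - b)), ∑ a ∈ range q,
        |∑ x ∈ (bl b j).filter (fun x => x % q = a), F x| ≤ 2 ^ z / W ^ C) :
    ∑ j ∈ range (2 ^ (z - b)), ∑ a ∈ range q,
        |∑ x ∈ (bl b j).filter (fun x => x % q = a), F x / (2 * W)| ≤ 2 ^ z / (4 * W ^ C) := by
  have hW0 : 0 < W := by linarith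
  simp only [← sum_div, abs_div, abs_of_pos (by linarith : 0 < 2 * W)]
  rw [div_le_iff₀ (by linarith)]
  refine h.trans ?_
  rw [div_mul_eq_mul_div, div_le_div_iff₀ (by positivity) (by positivity)]
  have h1 : (0 : ℝ) < 2 ^ z * W ^ C := by positivity
  nlinarith

private lemma rap_sum_none (z b q C : ℕ) (W D γ ε : ℝ) (F G : ℕ → ℝ) (hW : 2 ≤ W) (hD : 1 ≤ D)
    (hb : b ≤ z) (hbD : (2 : ℝ) ^ b ≤ D ^ (γ - 2 * ε)) (hq : 1 ≤ q)
    (hF : ∀ x, |F x| ≤ 2 * W) (hG : ∀ x, |G x| ≤ W)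
    (hGl : ∀ x t : ℕ, |G (x + t) - G x| ≤ W * t / D ^ (γ - ε))
    (h : ∑ j ∈ range (2 ^ (z - b)), ∑ a ∈ range q,
        |∑ x ∈ (bl b j).filter (fun x => x % q = a), F x| ≤ 2 ^ z / W ^ C) :
    ∑ j ∈ range (2 ^ (z - b)), ∑ a ∈ range q,
        |∑ x ∈ (bl b j).filter (fun x => x % q = a), G x * F x / (2 * W ^ 2)| ≤
      2 ^ z / (4 * W ^ C) + 2 ^ z * D ^ (-ε) := by
  have hW0 : 0 < W := by linarith
  have hD0 : 0 < D := by linarith
  simp only [← sum_div, abs_div, abs_of_pos (by positivity : 0 < 2 * W ^ 2)]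
  rw [div_le_iff₀ (by positivity)]
  have hrat : (2 : ℝ) ^ b / D ^ (γ - ε) ≤ D ^ (-ε) := by
    rw [div_le_iff₀ (Real.rpow_pos_of_pos hD0 _), ← Real.rpow_add hD0]
    refine hbD.trans (le_of_eq ?_)
    congr 1
    ring
  have hin : ∀ j ∈ range (2 ^ (z - b)), ∑ a ∈ range q,
      |∑ x ∈ (bl b j).filter (fun x => x % q = a), G x * F x| ≤
      (∑ a ∈ range q, W * |∑ x ∈ (bl b j).filter (fun x => x % q = a), F x|) +
        2 ^ b * (2 * W ^ 2 * D ^ (-ε)) := by
    intro j _
    have e0 : ∑ a ∈ range q, ∑ x ∈ (bl b j).filter (fun x => x % q = a),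
        (2 * W ^ 2 * D ^ (-ε)) = 2 ^ b * (2 * W ^ 2 * D ^ (-ε)) := by
      rw [sum_fiberwise_of_maps_to (fun x _ => mem_range.2 (Nat.mod_lt _ hq)), sum_const,
        nsmul_eq_mul]
      congr 1
      unfold bl
      rw [Nat.card_Ico]
      have : 2 ^ b * (j + 1) - 2 ^ b * j = 2 ^ b := by
        rw [mul_add, mul_one, Nat.add_sub_cancel_left]
      rw [this]
      push_cast
      rfl
    rw [← e0, ← sum_add_distrib]
    refine sum_le_sum fun a _ => ?_
    have e1 : ∑ x ∈ (bl b j).filter (fun x => x % q = a), G x * F x =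
        G (2 ^ b * j) * ∑ x ∈ (bl b j).filter (fun x => x % q = a), F x +
        ∑ x ∈ (bl b j).filter (fun x => x % q = a), (G x - G (2 ^ b * j)) * F x := by
      rw [mul_sum, ← sum_add_distrib]
      refine sum_congr rfl fun x _ => ?_
      ring
    rw [e1]
    refine (abs_add_le _ _).trans (add_le_add ?_ ?_)
    · rw [abs_mul]
      exact mul_le_mul_of_nonneg_right (hG _) (abs_nonneg _)
    · refine (abs_sum_le_sum_abs _ _).trans (sum_le_sum fun x hx => ?_)
      rw [mem_filter] at hx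
      have hx1 := hx.1
      unfold bl at hx1
      rw [mem_Ico] at hx1
      have h1 := hGl (2 ^ b * j) (x - 2 ^ b * j)
      rw [Nat.add_sub_cancel' hx1.1] at h1
      have h2 : ((x - 2 ^ b * j : ℕ) : ℝ) ≤ 2 ^ b := by
        have h3 : x - 2 ^ b * j ≤ 2 ^ b := by
          have := hx1.2
          rw [mul_add, mul_one] at this
          omega
        exact_mod_cast h3
      have h3 : |G x - G (2 ^ b * j)| ≤ W * D ^ (-ε) := by
        refine h1.trans ?_
        rw [mul_div_assoc]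
        refine mul_le_mul_of_nonneg_left (le_trans ?_ hrat) hW0.le
        exact div_le_div_of_nonneg_right h2 (Real.rpow_nonneg hD0.le _)
      rw [abs_mul]
      refine (mul_le_mul h3 (hF x) (abs_nonneg _)
        (mul_nonneg hW0.le (Real.rpow_nonneg hD0.le _))).trans (le_of_eq ?_)
      ring
  refine (sum_le_sum hin).trans ?_
  rw [sum_add_distrib, sum_const, card_range, nsmul_eq_mul, add_mul]
  simp only [← mul_sum]
  refine add_le_add ?_ (le_of_eq ?_)
  · refine (mul_le_mul_of_nonneg_left h hW0.le).trans ?_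
    rw [← mul_div_assoc, div_mul_eq_mul_div, div_le_div_iff₀ (by positivity) (by positivity)]
    have h1 : (0 : ℝ) < 2 ^ z * W ^ C := by positivity
    have h2 : W * 2 ^ z * (4 * W ^ C) = 2 ^ z * W ^ C * (4 * W) := by ring
    have h3 : 2 ^ z * (2 * W ^ 2) * W ^ C = 2 ^ z * W ^ C * (2 * W ^ 2) := by ring
    rw [h2, h3]
    refine mul_le_mul_of_nonneg_left ?_ h1.le
    nlinarith
  · have h1 : ((2 ^ (z - b) : ℕ) : ℝ) * 2 ^ b = 2 ^ z := by
      push_cast
      rw [← pow_add, Nat.sub_add_cancel hb]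
    rw [← mul_assoc, h1]
    ring

theorem replace_ap_of (s : ℕ) (d : Fin (s + 1) → ℕ) (hP : ThmPC s d) (hd2 : ∀ i, 2 ≤ d i)
    (γ ε : ℝ) (hγ : 1 ≤ γ) (hγd : γ ≤ d 0) (hε : 0 < ε) (hε' : ε ≤ 1 / 8) :
    ∃ x0 : ℝ, 0 < x0 ∧ ∃ C : ℕ, ∃ σ : ℝ, 0 < σ ∧ ∃ D0 : ℝ,
    ∀ (D : ℝ) (K u T z : ℕ), D0 ≤ D → D ≤ u → (u : ℝ) + T ≤ 2 * D → D ^ (1 - x0) ≤ T → 1 ≤ K →
    (∀ i, ((K : ℝ) * (3 * D)) ^ (d i) ≤ (2 : ℝ) ^ z) →
    ∀ W : ℝ, 2 ≤ W → W ≤ D ^ σ → (K : ℝ) ≤ W →
    ∀ (G : ℕ → ℝ) (f g : Option (Fin (s + 1)) → ℕ → ℝ), (∀ x, |G x| ≤ W) →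
    (∀ x t : ℕ, |G (x + t) - G x| ≤ W * t / D ^ (γ - ε)) →
    (∀ o x, |f o x| ≤ W ∧ |g o x| ≤ W) → (∀ o x, 2 ^ z ≤ x → f o x = 0 ∧ g o x = 0) →
    ∀ b : Option (Fin (s + 1)) → ℕ, BlkLen d γ ε D b →
    (∀ o, ∀ q : ℕ, 1 ≤ q → (q : ℝ) ≤ W ^ C →
      ∑ j ∈ range (2 ^ (z - b o)), ∑ a ∈ range q,
        |∑ x ∈ (bl (b o) j).filter (fun x => x % q = a), (f o x - g o x)| ≤
          2 ^ z / W ^ C) →
    |nform d K u T (2 ^ z) G f - nform d K u T (2 ^ z) G g| ≤ 1 / W := by
  obtain ⟨x0, hx0, C', σ', hσ', D0', HP⟩ := hP ε hε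
  set A : ℕ := 3 * s + 8 with hA
  have hA0 : (0 : ℝ) < A := by rw [hA]; positivity
  refine ⟨x0, hx0, A * C', min (σ' / A) (ε / (8 * ((A * C' : ℕ) + 1))),
    lt_min (by positivity) (by positivity), max (max D0' 1) (13 ^ (4 / ε)), ?_⟩
  intro D K u T z hD hu1 hu2 hT hK hKz W hW2 hWσ hKW G f g hG hGl hfg hfg0 b hb hsum
  have hDD : D0' ≤ D := ((le_max_left _ _).trans (le_max_left _ _)).trans hD
  have hD1 : 1 ≤ D := ((le_max_right _ _).trans (le_max_left _ _)).trans hD
  have hD13 : (13 : ℝ) ^ (4 / ε) ≤ D := (le_max_right _ _).trans hD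
  have hD0 : 0 < D := by linarith
  have hW0 : 0 < W := by linarith
  have hW1 : 1 ≤ W := by linarith
  have hDbig : 13 ≤ D ^ (ε / 4) := by
    have h1 := Real.rpow_le_rpow (by positivity) hD13 (by positivity : 0 ≤ ε / 4)
    rw [← Real.rpow_mul (by norm_num)] at h1
    have h2 : 4 / ε * (ε / 4) = 1 := by field_simp
    rwa [h2, Real.rpow_one] at h1
  -- sizes of powers of W
  have hWA : W ^ A ≤ D ^ σ' := by
    have h1 : W ≤ D ^ (σ' / A) := hWσ.trans
      (Real.rpow_le_rpow_of_exponent_le hD1 (min_le_left _ _))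
    have h2 := pow_le_pow_left₀ hW0.le h1 A
    rw [← Real.rpow_natCast (D ^ (σ' / A)) A, ← Real.rpow_mul hD0.le,
      div_mul_cancel₀ _ hA0.ne'] at h2
    exact h2
  have hWC : W ^ (A * C') ≤ D ^ (ε / 8) := by
    have h1 : W ≤ D ^ (ε / (8 * ((A * C' : ℕ) + 1))) := hWσ.trans
      (Real.rpow_le_rpow_of_exponent_le hD1 (min_le_right _ _))
    have h2 := pow_le_pow_left₀ hW0.le h1 (A * C')
    rw [← Real.rpow_natCast (D ^ (ε / (8 * ((A * C' : ℕ) + 1)))) (A * C'),
      ← Real.rpow_mul hD0.le] at h2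
    refine h2.trans (Real.rpow_le_rpow_of_exponent_le hD1 ?_)
    rw [div_mul_eq_mul_div, div_le_div_iff₀ (by positivity) (by norm_num)]
    have h3 : (0 : ℝ) ≤ ((A * C' : ℕ) : ℝ) := Nat.cast_nonneg _
    nlinarith
  -- the step
  have step : ∀ (S : Finset (Option (Fin (s + 1)))) (o : Option (Fin (s + 1))),
      |nform d K u T (2 ^ z) G (Function.update (fun o' => if o' ∈ S then g o' else f o') o
        (fun x => f o x - g o x))| ≤ 1 / (W * (s + 2)) := by
    intro S o
    by_contra hcon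
    rw [not_le] at hcon
    set H := Function.update (fun o' => if o' ∈ S then g o' else f o') o
        (fun x => f o x - g o x) with hH
    have hHo : H o = fun x => f o x - g o x := by rw [hH, Function.update_self]
    have hHb : ∀ o' x, |H o' x| ≤ 2 * W := by
      intro o' x
      by_cases ho : o' = o
      · subst ho
        rw [hHo]
        have := abs_sub (f o' x) (g o' x)
        have := (hfg o' x).1
        have := (hfg o' x).2
        linarith
      · rw [hH, Function.update_of_ne ho]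
        split_ifs
        · linarith [(hfg o' x).2]
        · linarith [(hfg o' x).1]
    have hHz : ∀ o' x, 2 ^ z ≤ x → H o' x = 0 := by
      intro o' x hx
      by_cases ho : o' = o
      · subst ho
        rw [hHo]
        simp [(hfg0 o' x hx).1, (hfg0 o' x hx).2]
      · rw [hH, Function.update_of_ne ho]
        split_ifs
        · exact (hfg0 o' x hx).2
        · exact (hfg0 o' x hx).1
    -- normalised functions
    have hn0 : ∀ x, |G x * H none x / (2 * W ^ 2)| ≤ 1 := by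
      intro x
      rw [abs_div, abs_of_pos (by positivity : 0 < 2 * W ^ 2), div_le_one (by positivity), abs_mul]
      refine (mul_le_mul (hG x) (hHb none x) (abs_nonneg _) hW0.le).trans (le_of_eq ?_)
      ring
    have hn1 : ∀ i x, |H (some i) x / (2 * W)| ≤ 1 := by
      intro i x
      rw [abs_div, abs_of_pos (by positivity : 0 < 2 * W), div_le_one (by positivity)]
      exact hHb _ _
    have hz0 : ∀ x, 2 ^ z ≤ x → G x * H none x / (2 * W ^ 2) = 0 := by
      intro x hx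
      rw [hHz none x hx]
      simp
    have hz1 : ∀ i x, 2 ^ z ≤ x → H (some i) x / (2 * W) = 0 := by
      intro i x hx
      rw [hHz (some i) x hx]
      simp
    have hform := rap_form s d K u T (2 ^ z) G H W hW0 (by positivity)
    -- δ
    set δ : ℝ := (W ^ A)⁻¹ with hδ
    have hδ1 : D ^ (-σ') ≤ δ := by
      rw [hδ, Real.rpow_neg hD0.le]
      exact inv_anti₀ (by positivity) hWA
    have hδ2 : δ ≤ 1 / 2 := by
      rw [hδ, one_div]
      refine inv_anti₀ (by norm_num) (hW2.trans ?_)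
      exact le_self_pow₀ hW1 (by omega)
    have hδi : δ⁻¹ = W ^ A := by rw [hδ, inv_inv]
    have hlam : (K : ℝ) ≤ δ⁻¹ := by
      rw [hδi]
      exact hKW.trans (le_self_pow₀ hW1 (by omega))
    have hlow : δ * ((2 ^ z : ℕ) : ℝ) ≤ |nform d K u T (2 ^ z) G H| * ((2 ^ z : ℕ) : ℝ) /
        (2 * W ^ 2 * (2 * W) ^ (s + 1)) := by
      rw [mul_div_right_comm]
      refine mul_le_mul_of_nonneg_right ?_ (Nat.cast_nonneg _)
      rw [le_div_iff₀ (by positivity)]
      refine le_trans ?_ hcon.le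
      rw [le_div_iff₀ (by positivity), hδ, mul_assoc, inv_mul_le_iff₀ (by positivity), mul_one]
      have k1 : 2 * W ^ 2 ≤ W ^ 3 := by
        have : W ^ 3 = W * W ^ 2 := by ring
        rw [this]
        exact mul_le_mul_of_nonneg_right hW2 (by positivity)
      have k2 : (2 * W) ^ (s + 1) ≤ W ^ (2 * s + 2) := by
        have : W ^ (2 * s + 2) = (W * W) ^ (s + 1) := by
          rw [← sq, ← pow_mul, mul_add, mul_one]
        rw [this]
        exact pow_le_pow_left₀ (by positivity) (mul_le_mul_of_nonneg_right hW2 hW0.le) _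
      have k3 : (s : ℝ) + 2 ≤ W ^ (s + 2) := by
        have h1 : s + 2 < 2 ^ (s + 2) := Nat.lt_two_pow_self
        have h2 : ((s + 2 : ℕ) : ℝ) ≤ ((2 ^ (s + 2) : ℕ) : ℝ) := by exact_mod_cast h1.le
        push_cast at h2
        exact h2.trans (pow_le_pow_left₀ (by norm_num) hW2 _)
      have k4 : W ^ A = W ^ 3 * W ^ (2 * s + 2) * (W * W ^ (s + 2)) := by
        rw [← pow_succ', ← pow_add, ← pow_add]
        congr 1
        omega
      rw [k4]
      exact mul_le_mul (mul_le_mul k1 k2 (by positivity) (by positivity))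
        (mul_le_mul_of_nonneg_left k3 hW0.le) (by positivity) (by positivity)
    obtain ⟨q, hq1, hqC, hq0, hqi⟩ := HP D K u T (2 ^ z) hDD hu1 hu2 hT hK
      (by intro i; push_cast; exact hKz i) δ hδ1 hδ2 hlam
      (rext (fun x => G x * H none x / (2 * W ^ 2)))
      (fun i => rext (fun x => H (some i) x / (2 * W)))
      (norm_rext _ hn0) (fun i => norm_rext _ (hn1 i))
      (fun x hx => ⟨rext_zero _ _ hz0 x (by exact_mod_cast hx),
        fun i => rext_zero _ _ (hz1 i) x (by exact_mod_cast hx)⟩)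
      (by rw [hform]; exact hlow)
    have hqW : (q : ℝ) ≤ W ^ (A * C') := by
      rw [hδi, ← pow_mul] at hqC
      exact hqC
    have hqD : (q : ℝ) ≤ D ^ (ε / 8) := hqW.trans hWC
    have hδC : δ ^ C' = (W ^ (A * C'))⁻¹ := by
      rw [hδ, inv_pow, ← pow_mul]
    have hK1 : (1 : ℝ) ≤ K := by exact_mod_cast hK
    have hDi : ∀ (e : ℝ) (i : Fin (s + 1)), e ≤ d i → D ^ (e - 2 * ε) ≤ (2 : ℝ) ^ z := by
      intro e i he
      refine le_trans ?_ (hKz i)
      rw [← Real.rpow_natCast (K * (3 * D)) (d i)]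
      have h1 : D ^ (e - 2 * ε) ≤ D ^ ((d i : ℕ) : ℝ) :=
        Real.rpow_le_rpow_of_exponent_le hD1 (by linarith)
      refine h1.trans (Real.rpow_le_rpow hD0.le ?_ (Nat.cast_nonneg _))
      nlinarith
    have hbz : ∀ (e : ℝ) (i : Fin (s + 1)) (b' : ℕ), e ≤ d i → (2 : ℝ) ^ b' ≤ D ^ (e - 2 * ε) →
        b' ≤ z := by
      intro e i b' he hb'
      have h1 := hb'.trans (hDi e i he)
      exact (pow_le_pow_iff_right₀ (by norm_num : (1 : ℝ) < 2)).1 h1
    have hHb' : ∀ x, |f o x - g o x| ≤ 2 * W := by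
      intro x
      have := hHb o x
      rwa [hHo] at this
    cases o with
    | none =>
      obtain ⟨⟨_, hbD⟩, _⟩ := hb
      obtain ⟨hL1, hL2, hL3⟩ := rap_err D γ ε hD1 hγ hε hε' (b none) q hbD hq1 hqD
      set L := ⌊D ^ (γ - 3 * ε / 2) / q⌋₊ with hL
      have hbz' := hbz γ 0 (b none) hγd hbD
      have h1 := hq0 L hL1 (hL2.trans (Real.rpow_le_rpow_of_exponent_le hD1 (by linarith)))
      rw [rap_sum_expect, hδC] at h1
      have h2 := rap_core z (b none) q L (fun x => G x * H none x / (2 * W ^ 2)) hbz' hq1 hL1 hn0 hz0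
      have h3 := rap_sum_none z (b none) q (A * C') W D γ ε (fun x => f none x - g none x) G hW2 hD1
        hbz' hbD hq1 hHb' hG hGl (hsum none q hq1 hqW)
      rw [hHo] at h1 h2
      refine rap_contra D W ε (A * C') z hD1 hW2 hε hWC hDbig ?_
      push_cast at h1
      refine h1.trans (h2.trans (add_le_add h3 ?_))
      exact mul_le_mul_of_nonneg_left hL3 (by positivity)
    | some i =>
      obtain ⟨_, hbi⟩ := hb
      obtain ⟨_, hbD⟩ := hbi i
      have hdi : (1 : ℝ) ≤ d i := by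
        have := hd2 i
        exact_mod_cast (by omega : 1 ≤ d i)
      obtain ⟨hL1, hL2, hL3⟩ := rap_err D (d i) ε hD1 hdi hε hε' (b (some i)) q hbD hq1 hqD
      set L := ⌊D ^ ((d i : ℝ) - 3 * ε / 2) / q⌋₊ with hL
      have hbz' := hbz (d i) i (b (some i)) le_rfl hbD
      have h1 := hqi i L hL1 (hL2.trans (Real.rpow_le_rpow_of_exponent_le hD1 (by linarith)))
      rw [rap_sum_expect, hδC] at h1
      have h2 := rap_core z (b (some i)) q L (fun x => H (some i) x / (2 * W)) hbz' hq1 hL1 (hn1 i)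
        (hz1 i)
      have h3 := rap_sum_some z (b (some i)) q (A * C') W (fun x => f (some i) x - g (some i) x) hW2
        (hsum (some i) q hq1 hqW)
      rw [hHo] at h1 h2
      refine rap_contra D W ε (A * C') z hD1 hW2 hε hWC hDbig ?_
      push_cast at h1
      have h4 : 0 ≤ (2 : ℝ) ^ z * D ^ (-ε) := by positivity
      refine h1.trans (h2.trans ?_)
      have h5 : (2 : ℝ) ^ z * (2 * ((2 : ℝ) ^ b (some i) / q + 1) / L) ≤
          2 ^ z * (8 * D ^ (-(ε / 2))) := mul_le_mul_of_nonneg_left hL3 (by positivity)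
      linarith
  have h := rap_hybrid (nform d K u T (2 ^ z) G) (fun h o v w => rap_nform_sub d K u T (2 ^ z) G h o v w)
    f g (1 / (W * (s + 2))) step
  refine h.trans (le_of_eq ?_)
  push_cast
  field_simp
  ring

end

end Pool.Agent.Helper67.NX2
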